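import Mathlib
import Pool.Agent.Helper66.AO.Final

/-!
Either all point-finite Borel-additive families are of bounded class, or all point-finite
Borel-additive families with at most `ℵ₁` members, in all metric spaces, are σ-discretely
decomposable.
-/

set_option autoImplicit false

universe u v

namespace Pool.Agent.Results.MP_b624cf_lc.AlephOneDichotomy

open Pool.Agent.Helper66.AO

/-- For every metric space `X` and every point-finite family `𝒳` of subsets of `X` all of whose
subfamilies have a Borel union, either all these unions lie in one additive class `Σ_α` with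
`α < ω₁`, or every point-finite family `𝒲` with at most `ℵ₁` members of subsets of any metric
space `W` all of whose subfamilies have a Borel union is σ-discretely decomposable. Here `S` is the
hierarchy of additive Borel classes of `X`. -/
theorem result (X : Type u) [MetricSpace X] (𝒳 : Set (Set X))
    (hfin : ∀ x : X, {A : Set X | A ∈ 𝒳 ∧ x ∈ A}.Finite)
    (hadd : ∀ 𝒴 ⊆ 𝒳, @MeasurableSet X (borel X) (⋃₀ 𝒴))
    (S : Ordinal.{0} → Set (Set X)) (hS1 : S 1 = {U : Set X | IsOpen U})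
    (hS2 : ∀ α : Ordinal.{0}, 1 < α → α < (Cardinal.aleph 1).ord →
        S α = {A : Set X | ∃ f : ℕ → Set X, A = (⋃ n, f n) ∧
          ∀ n, ∃ β : Ordinal.{0}, 1 ≤ β ∧ β < α ∧ (f n)ᶜ ∈ S β}) :
    (∃ α : Ordinal.{0}, 1 ≤ α ∧ α < (Cardinal.aleph 1).ord ∧ ∀ 𝒴 ⊆ 𝒳, ⋃₀ 𝒴 ∈ S α) ∨
    (∀ (W : Type v) [MetricSpace W] (𝒲 : Set (Set W)), Cardinal.mk 𝒲 ≤ Cardinal.aleph 1 →
      (∀ y : W, {A : Set W | A ∈ 𝒲 ∧ y ∈ A}.Finite) →
      (∀ 𝒱 ⊆ 𝒲, @MeasurableSet W (borel W) (⋃₀ 𝒱)) → SigmaDiscretelyDecomposable 𝒲) :=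
  final X 𝒳 hfin hadd S hS1 hS2

end Pool.Agent.Results.MP_b624cf_lc.AlephOneDichotomy
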